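import Pool.Agent.TH850.UR.ClaimA
import Pool.Agent.TH850.UR.Maj
import Pool.Agent.V8H36.SW.Dens

set_option autoImplicit false

/-! Number rigidity of the zeros of zeta, in mean: assembly. -/

namespace Pool.Agent.V8H36.NR

open Complex Filter Topology MeasureTheory Set
open Pool.Agent.TH850.UR
open Pool.Agent.TH850.NR (kone kone_int kone_integral cc Lin Lin_integral Lin_integrable)
open H370 (zz zz_re zz_im mult Zf zset mem_Zf good_zeta)

/-- the scale -/
noncomputable def Wl (lam T : ℝ) : ℝ := Real.log T / lam / (2 * Real.pi)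

/-- the number of zeros in the window -/
noncomputable def Nin (lam b T t : ℝ) : ℝ :=
  ∑ s ∈ Zf riemannZeta T (2 * T), (mult riemannZeta s : ℝ) * kone b ((s.im - t) * Wl lam T)

/-- the statistic of the zeros outside -/
noncomputable def Mout (lam : ℝ) (J : ℕ) (b T t : ℝ) : ℝ :=
  ∑ s ∈ Zf riemannZeta T (2 * T), (mult riemannZeta s : ℝ) * (kk J b (Wl lam T) (zz s - t)).re

/-- the defect -/
noncomputable def Fd (lam : ℝ) (J : ℕ) (b T t : ℝ) : ℝ := Nin lam b T t + Mout lam J b T t - lam * cc J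

lemma kone_meas (b : ℝ) : Measurable (kone b) := by
  unfold TH850.NR.kone
  exact Measurable.ite (measurableSet_le (measurable_id.abs) measurable_const) measurable_const measurable_const

lemma kk_meas (J : ℕ) (b W : ℝ) (z : ℂ) : Measurable fun t : ℝ => (kk J b W (z - t)).re := by
  unfold kk
  have hc := phiC_cont J
  refine Complex.measurable_re.comp (Measurable.ite ?_ ?_ measurable_const)
  · have h1 : Measurable fun t : ℝ => |(z - t).re * W| := by
      have : Continuous fun t : ℝ => |(z - (t : ℂ)).re * W| := by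
        have : Continuous fun t : ℝ => (z - (t : ℂ)).re := Complex.continuous_re.comp (by fun_prop)
        fun_prop
      exact this.measurable
    exact (measurableSet_lt measurable_const h1).inter (measurableSet_le h1 measurable_const)
  · have : Continuous fun t : ℝ => phiC J ((z - t) * W) := by fun_prop
    exact this.measurable

lemma Fd_meas (lam : ℝ) (J : ℕ) (b T : ℝ) : Measurable (Fd lam J b T) := by
  unfold Fd Nin Mout
  refine Measurable.sub (Measurable.add ?_ ?_) measurable_const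
  · refine Finset.measurable_sum _ fun s _ => ?_
    refine measurable_const.mul ((kone_meas b).comp ?_)
    fun_prop
  · refine Finset.measurable_sum _ fun s _ => ?_
    exact measurable_const.mul (kk_meas J b _ _)

lemma kk_zero {J : ℕ} {b W : ℝ} {v : ℂ} (h : 4 ^ J < |v.re * W|) : kk J b W v = 0 := by
  unfold kk
  rw [if_neg]
  rintro ⟨-, h2⟩
  linarith

lemma kk_bd {J : ℕ} (hJ : 1 ≤ J) {b W : ℝ} (hW : 0 ≤ W) {v : ℂ} (hv : |v.im| ≤ 1 / 2) :
    ‖kk J b W v‖ ≤ Real.exp (4 * W) := by
  unfold kk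
  split_ifs with h
  · refine (phiC_le J hJ _).trans (Real.exp_le_exp.2 ?_)
    have h1 : (v * (W : ℂ)).im = v.im * W := by simp
    rw [h1, abs_mul, abs_of_nonneg hW]
    have := Real.pi_le_four
    have h2 := Real.pi_pos
    have h3 : Real.pi * (|v.im| * W) ≤ 4 * (1 / 2 * W) := by gcongr
    nlinarith
  · rw [norm_zero]
    positivity

/-- pointwise bound by the statistic with the full kernel -/
lemma point {lam : ℝ} {J : ℕ} (hJ : 1 ≤ J) {b T U1 U2 t : ℝ} (hT : 10 ≤ T)
    (hlam : 0 < lam) (hW : 2 * 4 ^ J ≤ Wl lam T) (hbW : b ≤ Wl lam T / 2)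
    (h1 : T ≤ U1) (h2 : U1 ≤ T + 1) (h3 : 2 * T - 1 ≤ U2) (h4 : U2 ≤ 2 * T)
    (hL2 : 3 ≤ Real.log T)
    (ht1 : T + Real.log T ≤ t) (ht2 : t ≤ 2 * T - Real.log T) :
    |Fd lam J b T t| ≤ |2 * (HT J (Real.log T / lam) U1 U2 t).re - lam * cc J| +
      Lin (Zf riemannZeta T (2 * T)) (fun s => (mult riemannZeta s : ℝ) *
        Real.exp (5 * |(zz s).im * Wl lam T|)) (fun s => s.im) (Wl lam T) (kmaj J b (Wl lam T)) t := by
  classical
  set W := Wl lam T with hWd
  have h44 : (1 : ℝ) ≤ 4 ^ J := one_le_pow₀ (by norm_num)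
  have hW0 : 0 < W := by linarith
  have hU : (1 : ℝ) ≤ U1 := by linarith
  have hTT : (1 : ℝ) ≤ T := by linarith
  set S := Zf riemannZeta T (2 * T) with hS
  set S1 := Zf riemannZeta U1 U2 with hS1
  have hsub : S1 ⊆ S := by
    intro s hs
    rw [hS1, mem_Zf good_zeta hU] at hs
    rw [hS, mem_Zf good_zeta hTT]
    exact ⟨hs.1, hs.2.1, by linarith [hs.2.2.1], by linarith [hs.2.2.2.1], hs.2.2.2.2⟩
  -- the zeros outside of `(U1, U2]` do not contribute
  have hfar : ∀ s ∈ S, s ∉ S1 → 4 ^ J < |(s.im - t) * W| ∧ b < |(s.im - t) * W| := by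
    intro s hs hs1
    rw [hS, mem_Zf good_zeta hTT] at hs
    rw [hS1, mem_Zf good_zeta hU] at hs1
    obtain ⟨a1, a2, a3, a4, a5⟩ := hs
    have h5 : 1 ≤ |s.im - t| := by
      by_cases h6 : U1 < s.im
      · have h7 : U2 < s.im := by
          by_contra hcon
          push Not at hcon
          exact hs1 ⟨a1, a2, h6, hcon, a5⟩
        rw [le_abs]; left; linarith
      · push Not at h6
        rw [le_abs]; right; linarith
    have h8 : W ≤ |(s.im - t) * W| := by
      rw [abs_mul, abs_of_pos hW0]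
      nlinarith
    constructor <;> linarith
  have e1 : Nin lam b T t = ∑ s ∈ S1, (mult riemannZeta s : ℝ) * kone b ((s.im - t) * W) := by
    unfold Nin
    symm
    apply Finset.sum_subset hsub
    intro s hs hs1
    have h5 := (hfar s hs hs1).2
    unfold TH850.NR.kone
    rw [if_neg (by linarith), mul_zero]
  have e2 : Mout lam J b T t = ∑ s ∈ S1, (mult riemannZeta s : ℝ) * (kk J b W (zz s - t)).re := by
    unfold Mout
    symm
    apply Finset.sum_subset hsub
    intro s hs hs1
    have h5 := (hfar s hs hs1).1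
    rw [kk_zero, Complex.zero_re, mul_zero]
    rw [Complex.sub_re, zz_re, Complex.ofReal_re]
    exact h5
  have e3 := full J (Real.log T / lam) hU (U2 := U2) t
  have e3' : 2 * (HT J (Real.log T / lam) U1 U2 t).re = (∑ s ∈ S1, (mult riemannZeta s : ℂ) *
      cexp (-(zz s - t) ^ 2 / 2) * phiC J ((zz s - t) * (W : ℝ))).re := by
    have := congrArg Complex.re e3
    rw [Complex.ofReal_re] at this
    rw [← this, hWd]
    rfl
  have e4 : Fd lam J b T t = (2 * (HT J (Real.log T / lam) U1 U2 t).re - lam * cc J) +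
      ∑ s ∈ S1, (mult riemannZeta s : ℝ) * ((kone b ((zz s - t).re * W) : ℂ) + kk J b W (zz s - t) -
        cexp (-(zz s - t) ^ 2 / 2) * phiC J ((zz s - t) * W)).re := by
    unfold Fd
    rw [e1, e2, e3', Complex.re_sum]
    have h5 : ∀ s ∈ S1, (mult riemannZeta s : ℝ) * ((kone b ((zz s - t).re * W) : ℂ) + kk J b W (zz s - t) -
        cexp (-(zz s - t) ^ 2 / 2) * phiC J ((zz s - t) * W)).re =
        (mult riemannZeta s : ℝ) * kone b ((s.im - t) * W) + (mult riemannZeta s : ℝ) * (kk J b W (zz s - t)).re -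
        ((mult riemannZeta s : ℂ) * cexp (-(zz s - t) ^ 2 / 2) * phiC J ((zz s - t) * (W : ℝ))).re := by
      intro s _
      have h6 : ((mult riemannZeta s : ℂ) * cexp (-(zz s - t) ^ 2 / 2) * phiC J ((zz s - t) * (W : ℝ))).re =
          (mult riemannZeta s : ℝ) * (cexp (-(zz s - t) ^ 2 / 2) * phiC J ((zz s - t) * (W : ℝ))).re := by
        rw [mul_assoc, ← Complex.ofReal_natCast, Complex.re_ofReal_mul]
      have h7 : (zz s - (t : ℂ)).re = s.im - t := by
        rw [Complex.sub_re, zz_re, Complex.ofReal_re]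
      rw [h6, Complex.sub_re, Complex.add_re, Complex.ofReal_re, h7]
      ring
    rw [Finset.sum_congr rfl h5, Finset.sum_sub_distrib, Finset.sum_add_distrib]
    ring
  rw [e4]
  refine (abs_add_le _ _).trans (add_le_add le_rfl ?_)
  refine (Finset.abs_sum_le_sum_abs _ _).trans ?_
  unfold TH850.NR.Lin
  refine le_trans ?_ (Finset.sum_le_sum_of_subset_of_nonneg hsub fun s _ _ => ?_)
  · refine Finset.sum_le_sum fun s hs => ?_
    rw [hS1, mem_Zf good_zeta hU] at hs
    rw [abs_mul, abs_of_nonneg (Nat.cast_nonneg _), mul_assoc]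
    refine mul_le_mul_of_nonneg_left ?_ (Nat.cast_nonneg _)
    refine (Complex.abs_re_le_norm _).trans ?_
    have hv : |(zz s - (t : ℂ)).im| ≤ 1 / 2 := by
      rw [Complex.sub_im, Complex.ofReal_im, sub_zero, zz_im, abs_neg, abs_le]
      constructor <;> linarith [hs.1, hs.2.1]
    have h5 := pointwise J hJ hW0 hbW (by linarith) (zz s - t) hv
    have h6 : (zz s - (t : ℂ)).im = (zz s).im := by
      rw [Complex.sub_im, Complex.ofReal_im, sub_zero]
    have h7 : (zz s - (t : ℂ)).re = s.im - t := by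
      rw [Complex.sub_re, zz_re, Complex.ofReal_re]
    rw [h6, h7] at h5
    rw [h7]
    exact h5
  · have := kmaj_nonneg J b W ((s.im - t) * W)
    positivity

/-- **the main estimate** -/
theorem main_est : ∃ lam C : ℝ, 1 ≤ lam ∧ 1 ≤ C ∧ ∀ b : ℝ, 0 ≤ b → ∀ J : ℕ, 1 ≤ J → ∀ ε : ℝ, 0 < ε →
    ∃ T0 : ℝ, 10 ≤ T0 ∧ ∀ T : ℝ, T0 ≤ T →
      ∫⁻ t in Icc (T + Real.log T) (2 * T - Real.log T), ENNReal.ofReal |Fd lam J b T t| ≤
        ENNReal.ofReal ((C / Real.sqrt J + C * (1 + b ^ 3) / J + ε) * T) := by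
  classical
  obtain ⟨C6, hC6, hA⟩ := claimA
  obtain ⟨κ, C0, T1, hκ, hC0, hT1, hD⟩ := SW.dens_zeta
  have hpi := Real.pi_gt_three
  set lam := max 1 (1 / κ) with hlam
  have hlam1 : 1 ≤ lam := le_max_left _ _
  have hlam0 : 0 < lam := by linarith
  have hlamκ : 5 / (2 * Real.pi * lam) ≤ κ := by
    have h1 : 1 / κ ≤ lam := le_max_right _ _
    rw [div_le_iff₀ hκ] at h1
    rw [div_le_iff₀ (by positivity)]
    nlinarith
  refine ⟨lam, max 1 (C6 + C0 * 126 * (2 * Real.pi * lam)), hlam1, le_max_left _ _, fun b hb J hJ ε hε => ?_⟩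
  obtain ⟨T2, hT2, hA⟩ := hA lam hlam1 J hJ ε hε
  have hev : ∀ᶠ T : ℝ in atTop, 2 * 4 ^ J + 2 * b ≤ Wl lam T := by
    have h1 : Tendsto (fun T : ℝ => Wl lam T) atTop atTop := by
      unfold Wl
      exact (Real.tendsto_log_atTop.atTop_div_const hlam0).atTop_div_const (by positivity)
    exact h1.eventually_ge_atTop _
  obtain ⟨T3, hT3⟩ := eventually_atTop.1 hev
  obtain ⟨T4, hT4⟩ := eventually_atTop.1 (Real.tendsto_log_atTop.eventually_ge_atTop 3)
  refine ⟨max (max T1 T2) (max T3 T4), by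
    refine le_trans hT1 (le_trans (le_max_left _ _) (le_max_left _ _)), fun T hT => ?_⟩
  have hTa : T1 ≤ T := le_trans (le_trans (le_max_left _ _) (le_max_left _ _)) hT
  have hTb : T2 ≤ T := le_trans (le_trans (le_max_right _ _) (le_max_left _ _)) hT
  have hTc : T3 ≤ T := le_trans (le_trans (le_max_left _ _) (le_max_right _ _)) hT
  have hTd : T4 ≤ T := le_trans (le_trans (le_max_right _ _) (le_max_right _ _)) hT
  obtain ⟨U1, U2, u1, u2, u3, u4, u5, hint⟩ := hA T hTb
  have hW := hT3 T hTc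
  have hL3 := hT4 T hTd
  have hT10 : 10 ≤ T := by linarith
  have hT0 : 0 < T := by linarith
  set W := Wl lam T with hWd
  have h44 : (1 : ℝ) ≤ 4 ^ J := one_le_pow₀ (by norm_num)
  have hW0 : 0 < W := by linarith
  have hW2 : 2 * 4 ^ J ≤ W := by linarith
  have hbW : b ≤ W / 2 := by linarith
  set S := Zf riemannZeta T (2 * T) with hS
  set m : ℂ → ℝ := fun s => (mult riemannZeta s : ℝ) * Real.exp (5 * |(zz s).im * W|) with hm
  set G : ℝ → ℝ := fun t => |2 * (HT J (Real.log T / lam) U1 U2 t).re - lam * cc J| with hG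
  have hGc : Continuous G := by
    have := HT_re_cont J (Real.log T / lam) (U2 := U2) (show (1:ℝ) ≤ U1 by linarith)
    rw [hG]
    fun_prop
  have hkint := Lin_integrable S m (fun s => s.im) hW0 (kmaj_int J b W)
  have hk0 : ∀ t, 0 ≤ Lin S m (fun s => s.im) W (kmaj J b W) t := by
    intro t
    refine TH850.NR.Lin_nonneg S (fun s => ?_) _ _ (kmaj_nonneg J b W) t
    rw [hm]; positivity
  -- the pointwise bound
  have hpt : ∀ t ∈ Icc (T + Real.log T) (2 * T - Real.log T), ENNReal.ofReal |Fd lam J b T t| ≤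
      ENNReal.ofReal (G t) + ENNReal.ofReal (Lin S m (fun s => s.im) W (kmaj J b W) t) := by
    intro t ht
    rw [← ENNReal.ofReal_add (abs_nonneg _) (hk0 t)]
    exact ENNReal.ofReal_le_ofReal (point hJ hT10 hlam0 hW2 hbW u1 u2 u3 u4 hL3 ht.1 ht.2)
  have h1 : ∫⁻ t in Icc (T + Real.log T) (2 * T - Real.log T), ENNReal.ofReal |Fd lam J b T t| ≤
      (∫⁻ t in Icc (T + Real.log T) (2 * T - Real.log T), ENNReal.ofReal (G t)) +
      ∫⁻ t in Icc (T + Real.log T) (2 * T - Real.log T), ENNReal.ofReal (Lin S m (fun s => s.im) W (kmaj J b W) t) := by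
    refine (setLIntegral_mono' measurableSet_Icc hpt).trans ?_
    rw [lintegral_add_left' (hGc.measurable.ennreal_ofReal.aemeasurable)]
  refine h1.trans ?_
  have h2 : ∫⁻ t in Icc (T + Real.log T) (2 * T - Real.log T), ENNReal.ofReal (G t) ≤
      ENNReal.ofReal ((C6 / Real.sqrt J + ε) * T) := by
    have hi : IntegrableOn G (Icc (T + Real.log T) (2 * T - Real.log T)) := hGc.continuousOn.integrableOn_Icc
    rw [← ofReal_integral_eq_lintegral_ofReal hi (Eventually.of_forall fun t => abs_nonneg _)]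
    apply ENNReal.ofReal_le_ofReal
    rw [integral_Icc_eq_integral_Ioc, ← intervalIntegral.integral_of_le u5]
    exact hint
  have h3 : ∫⁻ t in Icc (T + Real.log T) (2 * T - Real.log T), ENNReal.ofReal (Lin S m (fun s => s.im) W (kmaj J b W) t) ≤
      ENNReal.ofReal (C0 * 126 * (2 * Real.pi * lam) * (1 + b ^ 3) / J * T) := by
    refine (setLIntegral_le_lintegral _ _).trans ?_
    rw [← ofReal_integral_eq_lintegral_ofReal hkint (Eventually.of_forall hk0)]
    apply ENNReal.ofReal_le_ofReal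
    rw [Lin_integral S m (fun s => s.im) hW0 (kmaj_int J b W)]
    have h4 : ∑ s ∈ S, m s ≤ C0 * (T * Real.log T) := by
      refine le_trans (Finset.sum_le_sum fun s _ => ?_) (hD T hTa)
      rw [hm]
      simp only
      refine mul_le_mul_of_nonneg_left (Real.exp_le_exp.2 ?_) (Nat.cast_nonneg _)
      rw [abs_mul, abs_of_pos hW0]
      have h5 : 5 * W ≤ κ * Real.log T := by
        have h6 : 5 * W = 5 / (2 * Real.pi * lam) * Real.log T := by
          rw [hWd]; unfold Wl; field_simp
        rw [h6]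
        exact mul_le_mul_of_nonneg_right hlamκ (by linarith)
      have h7 := abs_nonneg (zz s).im
      nlinarith
    have h5 : ∫ y, kmaj J b W y ≤ 126 * (1 + b ^ 3) / J := kmaj_bound J hJ hb le_rfl hW2
    have h6 : 0 ≤ ∫ y, kmaj J b W y := integral_nonneg fun y => kmaj_nonneg J b W y
    have hJ' : (0 : ℝ) < J := by exact_mod_cast hJ
    have hL0 : 0 < Real.log T := by linarith
    have h8 : 0 ≤ C0 * (T * Real.log T) := by positivity
    calc (∑ s ∈ S, m s) * (∫ y, kmaj J b W y) / W ≤ (C0 * (T * Real.log T)) * (126 * (1 + b ^ 3) / J) / W := by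
          gcongr
      _ = C0 * 126 * (2 * Real.pi * lam) * (1 + b ^ 3) / J * T := by
          rw [hWd]; unfold Wl; field_simp
  refine (add_le_add h2 h3).trans ?_
  have hJ' : (0 : ℝ) < J := by exact_mod_cast hJ
  have hs : 0 < Real.sqrt J := Real.sqrt_pos.2 hJ'
  rw [← ENNReal.ofReal_add (by positivity) (by positivity)]
  apply ENNReal.ofReal_le_ofReal
  set C := max 1 (C6 + C0 * 126 * (2 * Real.pi * lam)) with hC
  have hc1 : C6 ≤ C := le_trans (by have : 0 < C0 * 126 * (2 * Real.pi * lam) := by positivity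
                                    linarith) (le_max_right _ _)
  have hc2 : C0 * 126 * (2 * Real.pi * lam) ≤ C := le_trans (by linarith) (le_max_right _ _)
  have g1 : C6 / Real.sqrt J ≤ C / Real.sqrt J := by gcongr
  have g2 : C0 * 126 * (2 * Real.pi * lam) * (1 + b ^ 3) / J ≤ C * (1 + b ^ 3) / J := by gcongr
  nlinarith

end Pool.Agent.V8H36.NR
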